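import Pool.Agent.H20.FT.Targets

/-!
# MP_c65535_nt, row IN: the height is invariant
-/

set_option autoImplicit false

open NumberField Height Finset Pool.Agent.H20.FT

namespace Pool.Agent.H11.FT

theorem pf_IN (h : Pool.Agent.H24.RD.T_HA) : T_IN := by
  intro F _ _ s x
  have h1 : absLogHeight₁ (s x) = logHeight₁ x / (Module.finrank ℚ F : ℝ) :=
    @h F F _ _ _ _ (s : F →+* F).toAlgebra x
  have h2 : absLogHeight₁ (s x) = logHeight₁ (s x) / (Module.finrank ℚ F : ℝ) :=
    h F F (s x)
  have h3 : (0 : ℝ) < Module.finrank ℚ F := by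
    exact_mod_cast Module.finrank_pos (R := ℚ) (M := F)
  rw [h1] at h2
  exact ((div_left_inj' h3.ne').mp h2).symm

end Pool.Agent.H11.FT
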