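import Pool.Agent.H20.FT.Targets

/-!
# MP_c65535_nt, row LI: rules for the sums of logarithms
-/

set_option autoImplicit false

open NumberField Height Finset Pool.Agent.H20.FT

namespace Pool.Agent.H11.FT

variable {F : Type} [Field F] [NumberField F]

theorem log_finprod (x : F) (hx : x ≠ 0) :
    Real.log (∏ᶠ w : FinitePlace F, w x) = Lf x := by
  have h := FinitePlace.hasFiniteMulSupport hx
  have hs : (Function.mulSupport fun w : FinitePlace F => w x).Finite := h
  rw [finprod_eq_prod _ hs, Real.log_prod]
  · unfold Lf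
    symm
    refine finsum_eq_sum_of_support_subset _ fun w hw => ?_
    rw [Function.mem_support] at hw
    rw [Set.Finite.coe_toFinset, Function.mem_mulSupport]
    intro h1
    exact hw (by rw [h1, Real.log_one])
  · intro w _
    exact (FinitePlace.pos_iff.mpr hx).ne'

theorem log_infprod (x : F) (hx : x ≠ 0) :
    Real.log (∏ w : InfinitePlace F, w x ^ w.mult) = Li x := by
  rw [Real.log_prod]
  · unfold Li
    exact Finset.sum_congr rfl fun w _ => by rw [Real.log_pow]
  · intro w _
    exact pow_ne_zero _ ((InfinitePlace.pos_iff).mpr hx).ne'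

theorem pf_LI : T_LI := by
  intro F _ _
  refine ⟨?_, ?_, ?_, ?_, ?_⟩
  · intro x hx
    have h := prod_abs_eq_one hx
    have h1 := congrArg Real.log h
    have hA : (∏ w : InfinitePlace F, w x ^ w.mult) ≠ 0 := left_ne_zero_of_mul_eq_one h
    have hB : (∏ᶠ w : FinitePlace F, w x) ≠ 0 := right_ne_zero_of_mul_eq_one h
    rw [Real.log_mul hA hB, log_infprod x hx, log_finprod x hx, Real.log_one] at h1
    linarith
  · intro x y hx hy
    unfold Li
    rw [← Finset.sum_add_distrib]
    refine Finset.sum_congr rfl fun v _ => ?_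
    rw [map_mul, Real.log_mul ((InfinitePlace.pos_iff).mpr hx).ne'
      ((InfinitePlace.pos_iff).mpr hy).ne']
    ring
  · intro x hint hx
    rw [← log_infprod x hx, InfinitePlace.prod_eq_abs_norm]
    refine Real.log_nonneg ?_
    have h1 : IsIntegral ℤ (Algebra.norm ℚ x) := Algebra.isIntegral_norm ℚ hint
    obtain ⟨n, hn⟩ := IsIntegrallyClosed.isIntegral_iff.mp h1
    have h2 : Algebra.norm ℚ x ≠ 0 := Algebra.norm_ne_zero_iff.mpr hx
    have h3 : n ≠ 0 := by
      rintro rfl
      rw [map_zero] at hn
      exact h2 hn.symm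
    have h4 : 1 ≤ |n| := Int.one_le_abs h3
    have h5 : (1 : ℚ) ≤ |Algebra.norm ℚ x| := by
      rw [← hn]
      have : ((1 : ℤ) : ℚ) ≤ ((|n| : ℤ) : ℚ) := by exact_mod_cast h4
      simpa using this
    exact_mod_cast h5
  · intro m
    unfold Li
    have h1 : ∀ v : InfinitePlace F, v (m : F) = m := fun v => by
      have := InfinitePlace.norm_embedding_eq v (m : F)
      rw [← this, map_natCast]
      simp
    simp only [h1]
    rw [← Finset.sum_mul, ← Nat.cast_sum, InfinitePlace.sum_mult_eq]
  · intro x n hn hx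
    unfold Li
    refine Finset.sum_eq_zero fun v _ => ?_
    have h1 : (v x) ^ n = 1 := by rw [← map_pow, hx, map_one]
    have h2 : v x = 1 := by
      have h0 : 0 ≤ v x := apply_nonneg v x
      exact (pow_eq_one_iff_of_nonneg h0 hn.ne').mp h1
    rw [h2, Real.log_one, mul_zero]

end Pool.Agent.H11.FT
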